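import Pool.Agent.helper37.L5.Spec

set_option autoImplicit false

namespace Pool.Agent.L5

open Pool.Agent.helper58.DC Pool.Agent.DI Pool.Agent.GR Pool.Agent.OB Pool.Agent.DR Pool.Agent.FI Pool.Agent.FI3 Pool.Agent.FI4 Pool.Agent.FI4I Pool.Agent.LE

theorem CNV (hBR2 : Pool.Agent.GR.BR2_stmt) (hCNTL : CNTL_stmt) (hSYL : SYL_stmt) (hTPR : Pool.Agent.FI.TPR_stmt) (hB2 : B2_stmt)
    (hSTC : Pool.Agent.FI.STC_stmt) : CNV_stmt := by
  classical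
  intro p M hS G _ _ χ hχ D x hD y v hy hv hyv hne
  haveI : Fact p.Prime := ⟨hS.pr⟩
  obtain ⟨hT1, hT2, -, -, -⟩ := hTPR p M hS G
  obtain ⟨-, -, -, -, -, -, hS7, hS8, -⟩ := hSYL p G
  have hχt : χ ∈ Blk M χ (⊤ : Subgroup G) := by
    refine ⟨by rw [hT1]; exact hχ, ?_⟩
    rw [hT2]
    exact SB.refl _ _
  have hvC : v ∈ Cz (⊤ : Subgroup G) y := by
    have h0 : v ∈ Subgroup.centralizer {y} := by
      rw [Subgroup.mem_centralizer_singleton_iff]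
      first
        | exact hyv
        | exact hyv.symm
    exact ⟨Subgroup.mem_top _, h0⟩
  have h1 := hBR2 p M hS G ⊤ y (Subgroup.mem_top _) hy χ v hvC v hvC hv hv
  have hfin : (Blk M χ (⊤ : Subgroup G)).Finite := (hB2 G ⊤).1.subset (fun ψ hψ => hψ.1)
  have h2 : Sf (Blk M χ (⊤ : Subgroup G)) (y * v) (y * v) ≠ 0 := by
    unfold Sf
    rw [finsum_mem_eq_finite_toFinset_sum _ hfin]
    have h3 : ∑ ψ ∈ hfin.toFinset, ψ (y * v) * ψ (y * v)⁻¹ = ((∑ ψ ∈ hfin.toFinset, ‖ψ (y * v)‖ ^ 2 : ℝ) : ℂ) := by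
      push_cast
      refine Finset.sum_congr rfl (fun ψ hψ => ?_)
      rw [Set.Finite.mem_toFinset] at hψ
      rw [hSTC G ⊤ ψ hψ.1 (y * v), Complex.mul_conj']
    rw [h3]
    have h4 : 0 < ∑ ψ ∈ hfin.toFinset, ‖ψ (y * v)‖ ^ 2 := by
      refine Finset.sum_pos' (fun _ _ => sq_nonneg _) ⟨χ, (Set.Finite.mem_toFinset _).2 hχt, ?_⟩
      exact pow_pos (norm_pos_iff.2 hne) 2
    exact_mod_cast h4.ne'
  have h5 : (Blk M χ (Cz (⊤ : Subgroup G) y)).Nonempty := by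
    by_contra hemp
    rw [Set.not_nonempty_iff_eq_empty] at hemp
    apply h2
    rw [h1, hemp]
    unfold Sf
    simp
  obtain ⟨η, hη1, hη2⟩ := h5
  have hC : Cz (⊤ : Subgroup G) y = ⊤ ⊓ cz (Subgroup.zpowers y) := by
    rw [hS7 y]
    rfl
  rw [hC] at hη1
  obtain ⟨l, -, hl⟩ := hCNTL p M hS G ⊤ (Subgroup.zpowers y) (hS8 y hy) le_top η hη1 χ ((hT2 η χ).1 hη2) D x hD
  exact ⟨l, hl y (Subgroup.mem_zpowers y)⟩

end Pool.Agent.L5
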